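import Pool.Agent.Y104.WL.Gf3

/-!
# Homological and numerical equivalence on all powers of a variety, and determinant classes

Let `W` be a Weil cohomology theory on a class of smooth proper varieties over a field `k` of any
characteristic, and `G` a class of varieties, closed under products, with an action of a group `Γ`
on the cohomology which has the formal properties of a Galois action (the examples: `l`-adic
cohomology and the Galois group of a finitely generated field; or any Weil cohomology theory over
any field, and the trivial group).

Let `S` and `S'` be disjoint sets of varieties in `G`:

* every `X` in `S` satisfies the sign conjecture: the operator on the cohomology which is `(-1) ^ i`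
  in degree `i` is given by an algebraic correspondence; `U X` is the whole cohomology `H(X)`, or,
  if homological and numerical equivalence are known to be equal on `X`, the transcendental
  cohomology `T(X)`, the orthogonal complement of the algebraic classes; form `tr (a b)`;
* every `X` in `S'` is an abelian variety with a polarization `ξ` (what is used is listed in
  `IsAbelian`), and `U X = H¹(X)`, form `tr (a b ξ ^ (dim X - 1))`.

Nothing else is assumed: no semisimplicity, no Lefschetz or Hodge type conjecture. The sign
conjecture is known for all varieties over finite fields (Katz-Messing), for curves, surfaces,
abelian varieties, complete intersections, and their products.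

Choose for every member `X` of `S ∪ S'` a flag `V X 0 ⊇ V X 1 ⊇ ⋯` of homogeneous isotropic
subspaces of `U X` which are stable under `Γ` (`GammaFlag`). Every member `F` of these flags has a
determinant line: if `v 0, v 1, …` is a basis of `F ⊆ H¹(A)`, it is spanned by the class
`v 0 * v 1 * ⋯` on the abelian variety `A`; if `v 0, …, v n` is a basis of the even or of the odd
part of `F ⊆ U X`, it is spanned by the antisymmetrized product of `v 0, …, v n`, a class on the
power `X ^ (n + 1)`. The determinant classes of the flags are the exterior products of the
generators of these lines (`DetClass3`). They are not zero, and `Γ` acts on them by a character.

The theorem: homological and numerical equivalence are equal in all codimensions on all products of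
members of `S ∪ S'` (and on all varieties covered by them) **if and only if** no determinant class
is algebraic and numerically trivial.

For instance, let `X` be any smooth projective variety over a finite field (`S = {X}`, `U X = H(X)`,
`Γ` generated by the Frobenius endomorphism). If there is a numerically trivial cycle on some power
of `X` with a class different from `0`, then there are isotropic subspaces of `H(X)`, stable under
Frobenius, and an exterior product of their determinants which is algebraic and numerically trivial.
So the equality on all powers of `X` is a question on these special classes, which are analogues of
the classes of Weil on abelian varieties of CM type. Similarly for all products of surfaces and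
abelian varieties over any field and for any Weil cohomology theory (`U X = T(X)`, `H¹(X)`).

The theorem `DeterminantClasses` in MP_5f0950_ag considers flags which are stable under all
algebraic correspondences, for varieties with `D(X)` and semisimple `U X`; here there is no
hypothesis of semisimplicity, and the equality need not be known for the members of `S`; neither of
the theorems is a special case of the other.

The proof. A numerically trivial class `ζ ≠ 0` on a product gives tensors `z ≠ 0` on the spaces
`U X`; all full contractions of all products of such tensors vanish. By the theory of Hilbert,
Mumford, Kempf and Rousseau (for the product of orthogonal and symplectic groups) there is an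
optimal weighted flag, stable under `Γ`, with rational weights `ω i > 0`. Let `Θ` be the product of
the determinant tensors of the members of the flag with multiplicities proportional to the gaps of
the weights. Because the flag is optimal some full contraction of `⊗ (z ^ d ⊗ Θ)` does not vanish;
moreover the weights show that this contraction of `⊗ z ^ d ⊗ Ξ`, for a tensor `Ξ` antisymmetric in
the blocks, depends only on the value of `Ξ` at the bases of the members of the flag. Now let `u` be
a class on the product of the varieties of the blocks, and let `Ξ` be the antisymmetrization of the
tensor `w ↦ tr (w 1 ⋯ w r u)`. If `u` is orthogonal to all algebraic classes, or algebraic, the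
contraction is the intersection number of `ζ ⊠ ⋯ ⊠ ζ ⊠ u` with an algebraic class, and so it is `0`.
Hence the determinant class is orthogonal to all `u` which are orthogonal to the algebraic classes,
that is, it is algebraic; and it is orthogonal to all algebraic classes.

Parts of the proof are due to helper977 (first order condition), helper641 (rational weights),
helper850 (destabilizing flags), helper141, helper455 and helper255 (antisymmetric tensors),
helper287 (coordinates, Gram matrices, weights), helper664 (signs), helper907 and helper391
(contractions and tensors of classes), helper779 and helper363 (products of linearly independent
classes), helper70 (exterior products), helper438 (duality) and helper154 (the class of the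
Poincare bundle).
-/

universe u v w

namespace Pool.Agent.Results.MP_0c8446_ag.DeterminantsOfEveryVariety

open Pool.Agent.H914 Pool.Agent.TH125.Gal Pool.Agent.Y104.Geo Pool.Agent.Y104.WL

/-- **Homological and numerical equivalence on all powers, and determinant classes.** -/
theorem result {k : Type u} [Field k] {𝒱 : VarClass k} {ops : CycleOps 𝒱}
    (W : WeilCohomology.{u, v} ops) {Γ : Type w} [Group Γ] (χ : Γ →* W.Kˣ) (G : Set (GVar W Γ))
    (hG : GaloisClass χ G) (S S' : Set (GVar W Γ)) (hSG : S ∪ S' ⊆ G) (hSS : ∀ X ∈ S, X ∉ S')
    (U : ∀ X : GVar W Γ, SubH W X.X) (ξ : ∀ A : GVar W Γ, W.H A.X)
    (hS : ∀ X ∈ S, SignConj W X.X ∧ IsPart W X.X (U X))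
    (hS' : ∀ A ∈ S', IsAbelian χ A (ξ A)) :
    (∀ Y, IsProductOf (GVar.X '' (S ∪ S')) Y → ∀ Y', Covers W Y Y' → HomEqNum W Y') ↔
      ∀ (r : ℕ) (V : Subs W Γ r),
        (∀ X ∈ S, GammaFlag (W.tr X.X) (W.gr X.X) (U X) X.act (V X)) →
        (∀ A ∈ S', GammaFlag (twistBy (W.tr A.X) (ξ A) (A.X.dim - 1)) (W.gr A.X)
          (W.gr A.X 1) A.act (V A)) →
        ∀ Y δ, DetClass3 S S' V Y δ → ¬NumTriv W Y δ :=
  homEqNum_iff_det3 hG hSG hSS hS hS'

end Pool.Agent.Results.MP_0c8446_ag.DeterminantsOfEveryVariety
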