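import Pool.Agent.Y140.FA.Forms

/-!
# Homological and numerical equivalence and the decomposition theorem

Let `f : Y ⟶ X` be a morphism over a field of any characteristic, `D` a divisor on `X` and `E` a
divisor on `Y`, and suppose that the cohomology `H(Y)` has a decomposition `H(Y) = ⨁ P_p` as given
by the theorems of Beilinson, Bernstein, Deligne and Gabber for `D` ample and `E` relatively ample
(`P_p` is the contribution of the perverse cohomology sheaf of degree `p` of `Rf_*`). Only the
perverse filtration by the sums of the `P_q` with `q ≤ p` enters in the conditions below. No
divisor on `Y` and no correspondence occurs in them, only the algebraic classes on `Y` itself.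

1. Homological and numerical equivalence coincide on `Y` (in all codimensions) if and only if, on
the graded pieces of the filtration induced on the algebraic classes, the relative Lefschetz
operators `E ^ i : Gr_(n - i) → Gr_(n + i)` are onto, the base Lefschetz operators `(f^* D) ^ j`
(with source in degree `2 c` and perversity `2 c + j`) are onto, and the intersection forms
`(v, w) ↦ deg (v E ^ i (f^* D) ^ j w)` are nondegenerate on the pieces with `i, j ≥ 0`.
2. The two conditions on the operators alone are equivalent to the conjecture A, with coefficients
in the field of the cohomology theory, for one or for any divisor on `Y` with hard Lefschetz, and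
to the symmetry of the ranks of the groups of algebraic classes.
3. If homological and numerical equivalence coincide on `Y`, then the classes of the cycles lie in
finite-dimensional rational vector spaces; and if they do, then the conjecture A with rational
coefficients is equivalent to the two conditions with rational coefficients. For a fibration in
curves it is then equivalent to the conjecture A for `X` and one condition on the cycles `z` on `Y`
with `f_* z = 0`.
-/

open Pool.Agent.H914 Pool.Agent.W498.Dom Pool.Agent.Y140.FA

universe u v

namespace Pool.Agent.Results.MP_0c8446_ag.FibrationD

/-- **Homological and numerical equivalence, and the conjecture A, for the source of a morphism with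
the decomposition theorem.** -/
theorem result {k : Type u} [Field k] {𝒱 : VarClass k} {ops : CycleOps 𝒱}
    (W : WeilCohomology.{u, v} ops) {Y X : 𝒱.Obj} (f : Y ⟶ X) (D : X.Cycles) (E : Y.Cycles)
    (hD : X.IsCyc 1 D) (hE : Y.IsCyc 1 E) (Q : PerverseDecomposition W f D E)
    (D' : Y.Cycles) (hD' : Y.IsCyc 1 D') (hHL : HardLefschetz W Y D') :
    HomEqNumForm W f (step W Y Q.piece) D E ∧
    List.TFAE [ConjAOn W Y D' (spanSet W Y), SymmetricRanks W Y,
      GradedOnto W f (step W Y Q.piece) D E (spanSet W Y)] ∧
    (HomIsNum W Y → FiniteRational W Y) ∧
    (FiniteRational W Y → RationalForms W f (step W Y Q.piece) D E D') :=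
  main Q hD hE hD' hHL

end Pool.Agent.Results.MP_0c8446_ag.FibrationD
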