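import Pool.Agent.W534.FamD

/-!
# The conjecture D on the product of a variety and a hyperplane section

Let `W` be a Weil cohomology theory on a class of smooth proper varieties over a field of any
characteristic, `X` a variety of dimension `n` in the class, `D` a divisor on `X` with hard Lefschetz
and `i : Y ⟶ X` a morphism from a variety of dimension `n - 1` with `i_* [Y] = D` which satisfies weak
Lefschetz (for example, the inclusion of a smooth hyperplane section).

The conjecture D (homological and numerical equivalence coincide) for `X × Y` in the ONE codimension
`n`, the codimension of the graph of `i`, is equivalent to D for `X × Y` in all codimensions, and to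
the conjunction of the conjecture B for `X` and of D for `X × Y` in the one codimension `n - 1`.

If it holds, then

* D holds for `X` and for `Y`, in all codimensions;
* the numerically trivial cycles on `X × X` act on the cohomology of `X` only through primitive
  classes of the middle degree `n`, those on `Y × Y` act on the cohomology of `Y` only on the vanishing
  cohomology: they kill the image of `i^*` and have values in the kernel of `i_*`.

The proofs are in the starting files `Pool/Agent/W534`, whose theorems had not been handed in.
-/

open CategoryTheory AlgebraicGeometry

universe u v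

namespace Pool.Agent.Results.MP_0c8446_ag.HyperplaneProduct

open Pool.Agent.H914 Pool.Agent.H447 Pool.Agent.W534 VarClass Obj WeilCohomology

/-- **The conjecture D on the product of a variety and a hyperplane section.** -/
theorem result {k : Type u} [Field k] {𝒱 : VarClass k} {ops : CycleOps 𝒱}
    (W : WeilCohomology.{u, v} ops) {X Y : 𝒱.Obj} (i : Y ⟶ X) (D : X.Cycles)
    (hdim : X.dim = Y.dim + 1) (hD : X.IsCyc 1 D)
    (hY : W.cl X (ops.push i Y.V.fundCycle) = W.cl X D) (hHL : HardLefschetz W X D)
    (hWL : WeakLefschetz W i) :
    List.TFAE [
      HomEqNumIn W (X.prod Y) X.dim,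
      ∀ q, HomEqNumIn W (X.prod Y) q,
      LefschetzB W X D ∧ HomEqNumIn W (X.prod Y) Y.dim] ∧
    (HomEqNumIn W (X.prod Y) X.dim → ∀ q, HomEqNumIn W X q ∧ HomEqNumIn W Y q ∧
      NumTrivialOnSquares W i D q) :=
  ⟨d_hyperplane hdim hD hY hHL hWL, fun h q =>
    ⟨(homEqNum_factors hdim hD hY hHL hWL h q).1, (homEqNum_factors hdim hD hY hHL hWL h q).2,
      numTrivialOnSquares hdim hD hY hHL hWL h q⟩⟩

end Pool.Agent.Results.MP_0c8446_ag.HyperplaneProduct
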