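import Mathlib
import Pool.Agent.Y91.PS.Free

/-!
# Homological and numerical equivalence on the products of any variety with very general members of
# families of abelian varieties with square zero operators of general rank

Let `A i` be finitely many families of principally polarized abelian varieties, not constant, given
by holomorphic families `Z i` of period matrices over the connected open set `U` (for instance the
universal covering of a curve), and suppose that each of them is good (`IsGoodFamily`): it satisfies
one of the following conditions.

1. The very general member is simple, more than half of its endomorphisms are symmetric for the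
   Rosati involution (that is, its endomorphism algebra is of type I or II in the classification of
   Albert) and some rational rank `r` is different from `0`, `g / 2` and `g`, and `(g, r)` is not
   exceptional, or there is another rational rank. A rational rank is the rank of `γ - 1` for a
   monodromy operator `γ` with `(γ - 1) ^ 2 = 0`, that is the dimension of the toric part of the
   fibre of the Néron model at a semistable degeneration, or the rank of any rational square zero
   element of the Lie algebra generated by the Hodge operators. The pair is exceptional if
   `2 g = e * C(4j+2, 2j+1)` and `r = e * C(4j, 2j)` for some `e` and some `j ≥ 1`, for instance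
   `(10, 6)`, `(126, 70)`.
2. All endomorphisms are rational numbers, some rank `r` of the family is different from `0`, `g / 2`
   and `g`, and `(g, r)` is not exceptional with `e = 1` or there is another rank, and `2 g` does not
   divide the product of two of the ranks. Here a rank of the family is the rank of the
   Kodaira-Spencer map at one point, of the difference of two period matrices, of the image of a
   period matrix under a derivation of the complex numbers, or of any square zero element of the
   Lie algebra generated by the Hodge operators.
3. The very general member is simple and some rank of the family is odd, or is two and the centre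
   of the endomorphism algebra is totally real.

Let `K` be a countable field of complex numbers. Then for all `t` in `U` outside of a countable set,
all products `A` of the members `A i t` (repetitions allowed) and ALL smooth projective varieties `Y`
such that the Hodge operator of the cohomology of `Y` has entries in `K` or such that `Y` is of CM
type: if homological and numerical equivalence agree for `Y`, then they agree for `A × Y`. More
precisely: (1) each algebraic class on `A × Y` is a sum of products `f ⊗ y`, where `f` is a product of
divisor classes on `A` and `y` is the class of an algebraic cycle on `Y`; (2) if the intersection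
numbers of an algebraic class `F` on `A × Y` with all products `β × y` of a product `β` of divisor
classes on `A` and an algebraic class `y` on `Y` are zero, then `F = 0`.

The assumption on `Y` is satisfied by all varieties of dimension at most four (Lieberman), for most
of which the standard conjecture of Lefschetz type is not known. For abelian varieties `A` the
agreement of the two relations is known (Lieberman), and it is known for `A × Y` if the standard
conjecture of Lefschetz type is true for `Y`; that conjecture is not used here.

Of algebraic cycles only the following is used (`Cycles`): they are Hodge classes, and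
`pr_*(F ∧ β)` is algebraic on `Y` for `F` algebraic on `A × Y` and a product `β` of divisor classes on
`A`, where `pr : A × Y → Y`. By the projection formula the number
`deg (pr_*(F ∧ β) · y)` is the intersection number of `F` and `β × y`.

The proof: a classification free argument with Jordan pairs (see the files of `Pool/Agent/Y91/JP`)
shows that the Lie algebra generated by the Hodge operators of `A i` is symplectic over the complex
numbers on each irreducible piece. A derivation of the complex numbers over `K` shows that the
Hodge structures of `A` and `Y` are independent. So the Hodge classes on `A × Y` are sums of products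
of divisor classes on `A` and Hodge classes on `Y`, and the components are found by integration
against products of divisor classes on `A`, on which the pairing is perfect.
-/

namespace Pool.Agent.Results.MP_0c8446_ag.TimesMonodromyFamilies

open Matrix Module Pool.Agent.H204R3.CM Pool.Agent.H194R3.CM Pool.Agent.W437.HD
  Pool.Agent.W437.HP Pool.Agent.TH131.GHC Pool.Agent.TH504.VY Pool.Agent.Y91.Sharp
  Pool.Agent.Y91.PS

/-- The spans `alg` and `algY` of the classes of algebraic cycles on `A × Y` and on `Y`, and the
intersection number of two classes on `Y`. -/
structure Cycles {W T : Type} [AddCommGroup W] [Module ℚ W] [AddCommGroup T] [Module ℂ T]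
    (per : W →+ T) {v : ℕ} (V : Coh v) where
  /-- the algebraic classes on `A × Y` -/
  alg : Submodule ℚ (HAZ W v)
  /-- the algebraic classes on `Y` -/
  algY : Submodule ℚ (Fin v → ℚ)
  /-- the degree of the cup product of two classes on `Y` -/
  deg : (Fin v → ℚ) →ₗ[ℚ] (Fin v → ℚ) →ₗ[ℚ] ℚ
  /-- algebraic classes are Hodge classes -/
  hodge : ∀ F ∈ alg, IsHodgeOnProduct per V F
  /-- the direct image of `F ∧ β` is algebraic, for a product `β` of divisor classes on `A` -/
  integral_mem : ∀ F ∈ alg, ∀ (k j : ℕ) (e : Basis (Fin k ⊕ Fin j) ℚ W),
    ∀ β ∈ divisorSpan per j, fibreIntegral e F β ∈ algY

/-- Homological and numerical equivalence agree on `Y`: an algebraic class whose intersection numbers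
with all algebraic classes are zero is zero. -/
def HomEqualsNum {W T : Type} [AddCommGroup W] [Module ℚ W] [AddCommGroup T] [Module ℂ T]
    {per : W →+ T} {v : ℕ} {V : Coh v} (C : Cycles per V) : Prop :=
  ∀ x ∈ C.algY, (∀ y ∈ C.algY, C.deg x y = 0) → x = 0

/-- The intersection numbers of the class `F` on `A × Y` with all products `β × y` of products `β` of
divisor classes on `A` and algebraic classes `y` on `Y` are zero. This is so if `F` is numerically
equivalent to zero. -/
def MeetsProductsTrivially {W T : Type} [AddCommGroup W] [Module ℚ W] [AddCommGroup T]
    [Module ℂ T] {per : W →+ T} {v : ℕ} {V : Coh v} (C : Cycles per V) (F : HAZ W v) : Prop :=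
  ∀ (k j : ℕ) (e : Basis (Fin k ⊕ Fin j) ℚ W), ∀ β ∈ divisorSpan per j, ∀ y ∈ C.algY,
    C.deg (fibreIntegral e F β) y = 0

/-- Each algebraic class on `A × Y` is a sum of products of products of divisor classes on `A` and
algebraic classes on `Y`. -/
def CyclesAreProducts {W T : Type} [AddCommGroup W] [Module ℚ W] [AddCommGroup T] [Module ℂ T]
    {per : W →+ T} {v : ℕ} {V : Coh v} (C : Cycles per V) : Prop :=
  C.alg ≤ Submodule.span ℚ {G | ∃ (k : ℕ) (f : W [⋀^Fin k]→ₗ[ℚ] ℚ) (y : Fin v → ℚ),
    f ∈ divisorSpan per k ∧ y ∈ C.algY ∧ G = cross f y}

/-- All algebraic classes on `A × Y` are sums of products, and if homological and numerical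
equivalence agree on `Y`, then each algebraic class on `A × Y` which meets all products trivially
is zero. -/
def HomNumOnProduct {W T : Type} [AddCommGroup W] [Module ℚ W] [AddCommGroup T] [Module ℂ T]
    (per : W →+ T) {v : ℕ} (V : Coh v) : Prop :=
  ∀ C : Cycles per V, CyclesAreProducts C ∧
    (HomEqualsNum C → ∀ F ∈ C.alg, MeetsProductsTrivially C F → F = 0)

theorem cross_zero {W : Type} [AddCommGroup W] [Module ℚ W] {v k : ℕ}
    (f : W [⋀^Fin k]→ₗ[ℚ] ℚ) : cross f (0 : Fin v → ℚ) = 0 := by
  have h1 : (LinearMap.toSpanSingleton ℚ (Fin v → ℚ) 0).compAlternatingMap f = 0 := by
    refine AlternatingMap.ext fun w => ?_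
    simp
  unfold cross
  rw [h1, Pi.single_zero]

/-- Let `Z i` be finitely many good families over the connected open set `U`, not constant, and `K` a
countable field of complex numbers. For all `t` in `U` outside of a countable set, for all
varieties `Y` of CM type or whose Hodge operator has entries in `K`, and for all products `A` of
abelian varieties `ℂ ^ g / (ℤ ^ g + Z(t) ℤ ^ g)`, `Z` one of the `Z i` (repetitions allowed): the
algebraic classes on `A × Y` are sums of products, and if homological and numerical equivalence
agree for `Y`, then each algebraic class on `A × Y` which meets all products trivially is zero. -/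
theorem result {ι : Type} [Fintype ι] {U : Set ℂ} (hU : IsOpen U) (hc : IsPreconnected U)
    {g : ι → ℕ} (Z : ∀ i, ℂ → Matrix (Fin (g i)) (Fin (g i)) ℂ)
    (h : ∀ i, IsGoodFamily U (Z i)) (hnc : ∀ i, ∃ s ∈ U, ∃ t ∈ U, Z i s ≠ Z i t)
    (K : Subfield ℂ) (hK : (K : Set ℂ).Countable) :
    ∃ E : Set ℂ, E.Countable ∧ ∀ t ∈ U, t ∉ E → ∀ {v : ℕ} (V : Coh v),
      (IsCMType V ∨ HasPeriodsIn K V) → ∀ {m : ℕ} (c : Fin m → ι),
        HomNumOnProduct (perFam (fun i => Z i t) c) V := by
  obtain ⟨E, hE, hEt⟩ := exists_free hU hc Z h hnc K hK
  refine ⟨E, hE, fun t ht htE v V hV m c C => ⟨fun F hF => ?_, fun hY F hF hz => ?_⟩⟩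
  · refine (hEt t ht htE V hV c).mem_of_integrals (C.hodge F hF) fun k j e f hf β hβ => ?_
    exact Submodule.subset_span ⟨k, f, _, hf, C.integral_mem F hF k j e β hβ, rfl⟩
  · have h1 : F ∈ (⊥ : Submodule ℚ _) := by
      refine (hEt t ht htE V hV c).mem_of_integrals (C.hodge F hF) fun k j e f hf β hβ => ?_
      have h2 : fibreIntegral e F β = 0 :=
        hY _ (C.integral_mem F hF k j e β hβ) fun y hy => hz k j e β hβ y hy
      rw [h2, cross_zero]
      exact Submodule.zero_mem _
    exact h1

end Pool.Agent.Results.MP_0c8446_ag.TimesMonodromyFamilies
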